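import Pool.Agent.H72.TW.Defs

/-!
# The tower of layers of a chain of cyclic extensions

`F 0 = ⊥ ≤ F 1 ≤ … ≤ F r = ⊤` are fields between `k` and `E`, each cyclic over the preceding one;
`ε i`, `i : Fin n`, are the embeddings of `E` in `Ω`, `α` generates `E`, `θ i = ε i α`. For
`F j = k(β_j)` put `c_j i = ε i β_j`.
-/

open Module

namespace Pool.Agent.H72.TW

open Pool.Agent.H78.TT

variable {k E Ω : Type*} [Field k] [Field E] [Algebra k E] [Field Ω] [Algebra k Ω] {n : ℕ}

/-- Two embeddings of a normal extension with the same restriction to the base field differ by an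
automorphism (`AlgHom.restrictNormal'`, `Ω` as an algebra over `F'` via `f`). -/
theorem exists_move {F F' Ω : Type*} [Field F] [Field F'] [Field Ω] [Algebra F F'] [Normal F F']
    (f g : F' →+* Ω) (h : f.comp (algebraMap F F') = g.comp (algebraMap F F')) :
    ∃ τ : F' ≃ₐ[F] F', ∀ x, g x = f (τ x) := by
  let _ : Algebra F Ω := (f.comp (algebraMap F F')).toAlgebra
  let _ : Algebra F' Ω := f.toAlgebra
  have : IsScalarTower F F' Ω := IsScalarTower.of_algebraMap_eq' rfl
  let g' : F' →ₐ[F] Ω := { g with commutes' := fun r => (RingHom.congr_fun h r).symm }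
  refine ⟨g'.restrictNormal' F', fun x => ?_⟩
  exact (g'.restrictNormal_commutes F' x).symm

/-- Values of an element of `E` are rational functions of one index. -/
private theorem r1_of_mem [FiniteDimensional k E] {α : E}
    (hα : IntermediateField.adjoin k {α} = ⊤) (ε : Fin n → E →ₐ[k] Ω) (γ : E) :
    R1 (fun i => ε i α) (⊥ : IntermediateField k Ω) (fun i => ε i γ) := by
  have hint : IsIntegral k α := Algebra.IsIntegral.isIntegral α
  have h1 : γ ∈ Algebra.adjoin k {α} := by
    have h2 : (IntermediateField.adjoin k {α}).toSubalgebra = Algebra.adjoin k {α} :=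
      IntermediateField.adjoin_simple_toSubalgebra_of_isAlgebraic hint.isAlgebraic
    rw [← h2, hα]
    exact IntermediateField.mem_top
  rw [Algebra.adjoin_singleton_eq_range_aeval] at h1
  obtain ⟨p, hp⟩ := h1
  have hp' : Polynomial.aeval α p = γ := hp
  refine ⟨Polynomial.eval₂ ((MvPolynomial.C).comp (algebraMap k (⊥ : IntermediateField k Ω)))
    (MvPolynomial.X 0) p, fun x => ?_⟩
  have h3 : ε (x 0) γ = Polynomial.eval₂ (algebraMap k Ω) (ε (x 0) α) p := by
    rw [← hp', ← Polynomial.aeval_def, Polynomial.aeval_algHom_apply]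
  change ε (x 0) γ = MvPolynomial.aeval (fun a => ε (x a) α) _
  rw [h3]
  have h4 : MvPolynomial.aeval (fun a => ε (x a) α)
      (Polynomial.eval₂ ((MvPolynomial.C).comp (algebraMap k (⊥ : IntermediateField k Ω)))
        (MvPolynomial.X 0) p : MvPolynomial (Fin 1) (⊥ : IntermediateField k Ω)) =
      Polynomial.eval₂ (((MvPolynomial.aeval (fun a : Fin 1 => ε (x a) α) :
        MvPolynomial (Fin 1) (⊥ : IntermediateField k Ω) →ₐ[(⊥ : IntermediateField k Ω)] Ω).toRingHom).comp
        ((MvPolynomial.C).comp (algebraMap k (⊥ : IntermediateField k Ω))))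
        (MvPolynomial.aeval (fun a : Fin 1 => ε (x a) α)
          (MvPolynomial.X 0 : MvPolynomial (Fin 1) (⊥ : IntermediateField k Ω))) p :=
    Polynomial.hom_eval₂ p _ (MvPolynomial.aeval (fun a : Fin 1 => ε (x a) α)).toRingHom
      (MvPolynomial.X 0)
  rw [h4]
  congr 1
  · ext c
    change _ = MvPolynomial.aeval (fun a : Fin 1 => ε (x a) α)
      (MvPolynomial.C (algebraMap k (⊥ : IntermediateField k Ω) c))
    rw [MvPolynomial.aeval_C]
    rfl
  · rw [MvPolynomial.aeval_X]

/-- Two embeddings which agree on a generator agree on the field. -/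
private theorem eq_on {F : IntermediateField k E} {β : E}
    (hβ : IntermediateField.adjoin k {β} = F) {f g : E →ₐ[k] Ω} (h : f β = g β) :
    ∀ x ∈ F, f x = g x := by
  intro x hx
  have h1 : f.comp F.val = g.comp F.val := by
    refine IntermediateField.algHom_ext_of_eq_adjoin k hβ.symm ?_
    intro y hy
    rw [Set.mem_singleton_iff] at hy
    subst hy
    exact h
  exact DFunLike.congr_fun h1 ⟨x, hx⟩

/-- `E` is obtained from `k` by a chain of cyclic Galois extensions. -/
def IsCyclicTower (k E : Type*) [Field k] [Field E] [Algebra k E] : Prop :=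
  ∃ (r : ℕ) (F : ℕ → IntermediateField k E), F 0 = ⊥ ∧ F r = ⊤ ∧
    ∀ j < r, ∃ h : F j ≤ F (j + 1), IsGalois (F j) (IntermediateField.extendScalars h) ∧
      IsCyclic (IntermediateField.extendScalars h ≃ₐ[F j] IntermediateField.extendScalars h)

/-- One layer. `ε` are all the embeddings. -/
theorem exists_layer [IsAlgClosed Ω] [FiniteDimensional k E] {α : E}
    (hα : IntermediateField.adjoin k {α} = ⊤) {ε : Fin n → E →ₐ[k] Ω}
    (hε : Function.Surjective ε) {F F' : IntermediateField k E} (h : F ≤ F')
    (hG : IsGalois F (IntermediateField.extendScalars h))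
    (hC : IsCyclic (IntermediateField.extendScalars h ≃ₐ[F] IntermediateField.extendScalars h))
    {β β' : E} (hβ : IntermediateField.adjoin k {β} = F)
    (hβ' : IntermediateField.adjoin k {β'} = F') :
    ∃ (S : Fin n → Fin n) (d : ℕ), d ∣ finrank k E ∧
      Layer k (fun i => ε i α) (fun i => ε i β) (fun i => ε i β') S d := by
  classical
  obtain ⟨σ, hσ⟩ := hC.exists_generator
  have hfin : FiniteDimensional F (IntermediateField.extendScalars h) := inferInstance
  have hβF : β ∈ F := by
    rw [← hβ]
    exact IntermediateField.mem_adjoin_simple_self k β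
  have hβF' : β' ∈ IntermediateField.extendScalars h := by
    rw [IntermediateField.mem_extendScalars, ← hβ']
    exact IntermediateField.mem_adjoin_simple_self k β'
  -- the shift
  have hS : ∀ i, ∃ j, ∀ x : IntermediateField.extendScalars h,
      ε j (x : E) = ε i ((σ x : IntermediateField.extendScalars h) : E) := by
    intro i
    let f : IntermediateField.extendScalars h →+* Ω :=
      ((ε i : E →ₐ[k] Ω) : E →+* Ω).comp
        (((IntermediateField.extendScalars h).val :
          IntermediateField.extendScalars h →+* E).comp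
          (σ.toRingEquiv : IntermediateField.extendScalars h →+* IntermediateField.extendScalars h))
    let _ : Algebra (IntermediateField.extendScalars h) Ω := f.toAlgebra
    let g : E →ₐ[IntermediateField.extendScalars h] Ω := IsAlgClosed.lift
    have hg : ∀ x : IntermediateField.extendScalars h, g (x : E) = f x := fun x => g.commutes x
    let g' : E →ₐ[k] Ω := { (g : E →+* Ω) with
      commutes' := by
        intro c
        have h1 := hg (algebraMap k (IntermediateField.extendScalars h) c)
        have h2 : f (algebraMap k (IntermediateField.extendScalars h) c) = algebraMap k Ω c := by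
          have h3 : σ (algebraMap k (IntermediateField.extendScalars h) c) =
              algebraMap k (IntermediateField.extendScalars h) c := by
            have h4 := σ.commutes (algebraMap k F c)
            exact h4
          change ε i ((σ (algebraMap k (IntermediateField.extendScalars h) c) :
            IntermediateField.extendScalars h) : E) = _
          rw [h3]
          exact (ε i).commutes c
        rw [h2] at h1
        exact h1 }
    obtain ⟨j, hj⟩ := hε g'
    refine ⟨j, fun x => ?_⟩
    rw [hj]
    exact hg x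
  choose S hS using hS
  have hSs : ∀ (s : ℕ) (i : Fin n) (x : IntermediateField.extendScalars h),
      ε (S^[s] i) (x : E) = ε i (((σ ^ s) x : IntermediateField.extendScalars h) : E) := by
    intro s
    induction s with
    | zero => intro i x; rfl
    | succ s ih =>
      intro i x
      rw [Function.iterate_succ_apply', hS, ih, pow_succ]
      rfl
  refine ⟨S, orderOf σ, ?_, ?_, ?_, ?_, ?_, ?_, ?_, ?_⟩
  · have h1 : orderOf σ = finrank F (IntermediateField.extendScalars h) := by
      rw [orderOf_eq_card_of_forall_mem_zpowers hσ]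
      exact IsGalois.card_aut_eq_finrank F (IntermediateField.extendScalars h)
    rw [h1, ← finrank_mul_finrank k F E,
      ← finrank_mul_finrank F (IntermediateField.extendScalars h) E]
    exact (Dvd.intro _ rfl).mul_left _
  · exact r1_of_mem hα ε β'
  · refine IsR.congr (r1_of_mem hα ε ((σ ⟨β', hβF'⟩ : IntermediateField.extendScalars h) : E))
      fun x => ?_
    exact hS (x 0) ⟨β', hβF'⟩
  · intro i j hij
    exact eq_on hβ' hij β (h hβF)
  · intro i j hij
    have h1 := hS i ⟨β', hβF'⟩
    have h2 := hS j ⟨β', hβF'⟩
    change ε (S i) β' = ε (S j) β'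
    rw [h1, h2]
    exact eq_on hβ' hij _ (σ ⟨β', hβF'⟩).2
  · intro i
    have h1 := hS i ⟨β, h hβF⟩
    change ε (S i) β = ε i β
    rw [h1]
    have h2 : σ ⟨β, h hβF⟩ = ⟨β, h hβF⟩ := σ.commutes ⟨β, hβF⟩
    rw [h2]
  · intro i
    have h1 := hSs (orderOf σ) i ⟨β', hβF'⟩
    change ε (S^[orderOf σ] i) β' = ε i β'
    rw [h1, pow_orderOf_eq_one]
    rfl
  · intro i j hij
    have h1 : ∀ x ∈ F, ε i x = ε j x := eq_on hβ hij
    obtain ⟨τ, hτ⟩ := exists_move (F := F) (F' := IntermediateField.extendScalars h)
      (((ε i : E →ₐ[k] Ω) : E →+* Ω).comp ((IntermediateField.extendScalars h).val : _ →+* E))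
      (((ε j : E →ₐ[k] Ω) : E →+* Ω).comp ((IntermediateField.extendScalars h).val : _ →+* E))
      (by
        ext x
        exact h1 x x.2)
    have h2 := hσ τ
    rw [← mem_powers_iff_mem_zpowers] at h2
    obtain ⟨s, hs, hsτ⟩ := (mem_powers_iff_mem_range_orderOf).1 h2 |> Finset.mem_image.1
    rw [Finset.mem_range] at hs
    refine ⟨s, hs, ?_⟩
    have h3 := hτ ⟨β', hβF'⟩
    have h4 := hSs s i ⟨β', hβF'⟩
    change ε j β' = ε (S^[s] i) β'
    rw [h4, hsτ]
    exact h3

theorem tow_of_tower [IsAlgClosed Ω] [FiniteDimensional k E] [Algebra.IsSeparable k E]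
    (hT : IsCyclicTower k E) {α : E}
    (hα : IntermediateField.adjoin k {α} = ⊤) {ε : Fin n → E →ₐ[k] Ω}
    (hε : Function.Bijective ε) {m : ℕ} (hm : m.Coprime (finrank k E)) :
    Tow k (fun i => ε i α) m (fun _ => 0) := by
  classical
  obtain ⟨r, F, h0, hr, hF⟩ := hT
  have hprim : ∀ j, ∃ β : E, IntermediateField.adjoin k {β} = F j := by
    intro j
    obtain ⟨a, ha⟩ := Field.exists_primitive_element k (F j)
    refine ⟨(a : E), ?_⟩
    rw [← IntermediateField.lift_adjoin_simple, ha, IntermediateField.lift_top]
  choose β' hβ' using hprim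
  let β : ℕ → E := fun j => if j = 0 then 0 else β' j
  have hβ : ∀ j, IntermediateField.adjoin k {β j} = F j := by
    intro j
    by_cases hj : j = 0
    · subst hj
      have h1 : β 0 = 0 := if_pos rfl
      rw [h1, h0]
      exact IntermediateField.adjoin_zero
    · have h1 : β j = β' j := if_neg hj
      rw [h1]
      exact hβ' j
  have key : ∀ s ≤ r, Tow k (fun i => ε i α) m (fun i => ε i (β (r - s))) := by
    intro s
    induction s with
    | zero =>
      intro _
      refine Tow.top fun i j hij => hε.1 ?_
      ext x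
      refine eq_on (hβ r) hij x ?_
      rw [hr]
      exact IntermediateField.mem_top
    | succ s ih =>
      intro hs
      have h1 : r - s = r - (s + 1) + 1 := by omega
      obtain ⟨h, hG, hC⟩ := hF (r - (s + 1)) (by omega)
      obtain ⟨S, d, hd, hL⟩ := exists_layer hα hε.2 h hG hC (hβ (r - (s + 1)))
        (hβ (r - (s + 1) + 1))
      refine Tow.step hL (Nat.Coprime.coprime_dvd_right hd hm) (r1_of_mem hα ε _) ?_
      rw [← h1]
      exact ih (by omega)
  have h1 := key r le_rfl
  rw [Nat.sub_self] at h1
  have h2 : (fun i => ε i (β 0)) = (fun _ => (0 : Ω)) := by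
    funext i
    have h3 : β 0 = 0 := if_pos rfl
    rw [h3, map_zero]
  rw [h2] at h1
  exact h1

end Pool.Agent.H72.TW
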