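import Pool.Agent.H72.TW.One
import Pool.Agent.H78.TT.CoreH

/-!
# The map of lines of a tower
-/

open Module

namespace Pool.Agent.H72.TW

open Pool.Agent.H78.TT Pool.Agent.H72.SB

variable {k Ω : Type*} [Field k] [Field Ω] [Algebra k Ω] {n : ℕ}
variable {θ : Fin n → Ω} {K₀ : IntermediateField k Ω} {c : Fin n → Ω} {w : Fin n → Fin n → Ω}
  {m : ℕ}

theorem Tow.exists_good [Infinite k] (hp : Pol k θ) (hθ : Function.Injective θ)
    (hw : Coc θ w K₀) (hm : 1 ≤ m) (hT : Tow k θ m c) : ∃ t, Good θ w K₀ m c t := by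
  induction hT with
  | @top c hc =>
    refine ⟨1, fun j => one_ne_zero, fun K _ _ => R1.one, fun K hK _ => ?_⟩
    have h1 : R2 θ K (fun i j => if i = j then 1 else 0) :=
      isR_delta (ι := Fin 2) hp hθ 0 1
    refine (h1.mul (R1.left (φ := fun i => w i i) (hw.mono hK).diag)).congr fun i j => ?_
    by_cases h : i = j
    · rw [h, ind_pos rfl, if_pos rfl]
    · rw [ind_neg (fun h' => h (hc h')), if_neg h, zero_mul, zero_mul]
  | step L hmd _ _ ih =>
    obtain ⟨t, ht⟩ := ih
    exact good_step hp hθ L hw hm hmd ht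

/-- The map of lines from a good vector for a constant function. -/
theorem lineMap_of_good [Infinite k] (hp : Pol k θ) (hθ : Function.Injective θ) {m : ℕ}
    {c₀ : Ω} {t : Fin n → Ω} (hw : Coc θ w K₀) (ht : Good θ w K₀ m (fun _ => c₀) t) :
    ∃ t : Fin n → Ω, (∀ j, t j ≠ 0) ∧ ∀ K : IntermediateField k Ω, K₀ ≤ K →
      (RR θ w K (Submodule.span Ω {1}) ↔
        RR θ (fun a b => w a b ^ (m : ℤ)) K (Submodule.span Ω {t})) := by
  refine ⟨t, ht.ne, fun K hK => ?_⟩
  have hwK := hw.mono hK
  have hwm : Coc θ (fun a b => w a b ^ (m : ℤ)) K := hwK.zpow hp _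
  have hon : ∀ F : Fin n → Fin n → Ω, On θ (fun _ => c₀) K F ↔ R2 θ K F := by
    intro F
    have e : (fun i l => ind (fun _ => c₀) (fun _ => c₀) i l * F i l) = F := by
      funext i l
      rw [ind_pos (c := fun _ => c₀) (c' := fun _ => c₀) rfl, one_mul]
    unfold On
    rw [e]
  rw [rr_line hp hθ hwK (t := 1) (fun _ => one_ne_zero), rr_line hp hθ hwm ht.ne]
  constructor
  · intro h1
    have h2 : R2 θ K w := by
      refine (R2.inv hp (F := fun i j => 1 / 1 / w i j) h1).congr fun i j => ?_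
      simp
    have h3 := ht.rat K hK ((hon w).2 h2)
    have h4 := (h3.left.div hp h3.right).div hp (h2.pow m)
    exact IsR.congr h4 fun x => by rw [zpow_natCast]
  · intro h1
    have h2 : R2 θ K (fun i l => w i l ^ m * (t l / t i)) := by
      refine (R2.inv hp (F := fun i l => t i / t l / w i l ^ (m : ℤ)) h1).congr fun i l => ?_
      rw [zpow_natCast]
      have a1 := ht.ne i
      have a2 := ht.ne l
      have a3 := hwK.ne i l
      field_simp
    have h3 : R2 θ K w := (hon w).1 (ht.back K hK ((hon _).2 h2))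
    refine IsR.congr (h3.inv hp) fun x => ?_
    simp

/-- The map of lines, for a tower of layers which starts with a constant function. -/
theorem lineMap_of_tow [Infinite k] (hp : Pol k θ) (hθ : Function.Injective θ) {m : ℕ}
    (hm : 1 ≤ m) {c₀ : Ω} (hT : Tow k θ m (fun _ => c₀)) : LineMap k θ (m : ℤ) := by
  intro K₀ w hw
  obtain ⟨t, ht⟩ := hT.exists_good hp hθ hw hm
  exact lineMap_of_good hp hθ hw ht

end Pool.Agent.H72.TW
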