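import Pool.Agent.H72.TW.Solv

/-!
# Transport of a chain of cyclic extensions to a subfield
-/

open Module

namespace Pool.Agent.H72.TW

theorem isCyclic_transport {F E M N : Type*} [Field F] [Field E] [Field M] [Field N] [Algebra F E]
    [Algebra M N] (f : F ≃+* M) (g : E ≃+* N)
    (hcomp : (algebraMap M N).comp f = (g : E →+* N).comp (algebraMap F E))
    (h : IsCyclic (E ≃ₐ[F] E)) : IsCyclic (N ≃ₐ[M] N) := by
  have hc : ∀ x : F, algebraMap M N (f x) = g (algebraMap F E x) := fun x =>
    RingHom.congr_fun hcomp x
  have hc' : ∀ y : M, g.symm (algebraMap M N y) = algebraMap F E (f.symm y) := by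
    intro y
    rw [RingEquiv.symm_apply_eq, ← hc, RingEquiv.apply_symm_apply]
  let Φ : (E ≃ₐ[F] E) →* (N ≃ₐ[M] N) :=
    { toFun := fun σ => AlgEquiv.ofRingEquiv (f := (g.symm.trans σ.toRingEquiv).trans g)
        (fun y => by
          change g (σ (g.symm (algebraMap M N y))) = algebraMap M N y
          rw [hc', σ.commutes, ← hc, RingEquiv.apply_symm_apply])
      map_one' := by
        ext y
        exact g.apply_symm_apply y
      map_mul' := fun a b => by
        ext y
        change g (a (b (g.symm y))) = g (a (g.symm (g (b (g.symm y)))))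
        rw [RingEquiv.symm_apply_apply] }
  refine isCyclic_of_surjective Φ fun τ => ?_
  refine ⟨AlgEquiv.ofRingEquiv (f := (g.trans τ.toRingEquiv).trans g.symm) (fun x => ?_), ?_⟩
  · change g.symm (τ (g (algebraMap F E x))) = algebraMap F E x
    rw [← hc, τ.commutes, hc', RingEquiv.symm_apply_apply]
  · ext y
    change g (g.symm (τ (g (g.symm y)))) = τ y
    rw [RingEquiv.apply_symm_apply, RingEquiv.apply_symm_apply]

variable {k E N : Type*} [Field k] [Field E] [Algebra k E] [Field N] [Algebra k N]

/-- The isomorphism of `F ∩ E` and `F`, if `F` is contained in the image of `E`. -/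
noncomputable def comapEquiv (φ : E →ₐ[k] N) (F : IntermediateField k N) (h : F ≤ φ.fieldRange) :
    F.comap φ ≃+* F :=
  RingEquiv.ofBijective
    ({ toFun := fun x => ⟨φ x.1, x.2⟩
       map_one' := Subtype.ext (map_one φ)
       map_zero' := Subtype.ext (map_zero φ)
       map_mul' := fun a b => Subtype.ext (map_mul φ a.1 b.1)
       map_add' := fun a b => Subtype.ext (map_add φ a.1 b.1) } : F.comap φ →+* F)
    ⟨fun a b hab => Subtype.ext (φ.injective (congrArg Subtype.val hab)), fun y => by
      obtain ⟨x, hx⟩ := h y.2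
      exact ⟨⟨x, by change φ x ∈ F; rw [show φ x = y.1 from hx]; exact y.2⟩, Subtype.ext hx⟩⟩

/-- The step of the chain in `N`, transported to `E`. -/
theorem step_comap (φ : E →ₐ[k] N) {F F' : IntermediateField k N} (hF' : F' ≤ φ.fieldRange)
    (h : F ≤ F') (hG : IsGalois F (IntermediateField.extendScalars h))
    (hC : IsCyclic (IntermediateField.extendScalars h ≃ₐ[F] IntermediateField.extendScalars h)) :
    ∃ h' : F.comap φ ≤ F'.comap φ,
      IsGalois (F.comap φ) (IntermediateField.extendScalars h') ∧
      IsCyclic (IntermediateField.extendScalars h' ≃ₐ[F.comap φ]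
        IntermediateField.extendScalars h') := by
  have h' : F.comap φ ≤ F'.comap φ := fun x hx => h hx
  refine ⟨h', ?_⟩
  let f : F ≃+* F.comap φ := (comapEquiv φ F (h.trans hF')).symm
  let g0 : F' ≃+* F'.comap φ := (comapEquiv φ F' hF').symm
  let g : IntermediateField.extendScalars h ≃+* IntermediateField.extendScalars h' := g0
  have hcomp : (algebraMap (F.comap φ) (IntermediateField.extendScalars h')).comp f =
      (g : IntermediateField.extendScalars h →+* IntermediateField.extendScalars h').comp
        (algebraMap F (IntermediateField.extendScalars h)) := by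
    ext x
    apply φ.injective
    have h1 : φ ((f x : F.comap φ) : E) = x := by
      have h2 := (comapEquiv φ F (h.trans hF')).apply_symm_apply x
      exact congrArg Subtype.val h2
    have h3 : ∀ y : F', φ ((g0 y : F'.comap φ) : E) = y := by
      intro y
      have h2 := (comapEquiv φ F' hF').apply_symm_apply y
      exact congrArg Subtype.val h2
    have h4 := h3 ⟨x.1, h x.2⟩
    exact h1.trans h4.symm
  exact ⟨IsGalois.of_equiv_equiv hcomp, isCyclic_transport f g hcomp hC⟩

/-- A chain in `N` with top `E`. -/
theorem isCyclicTower_of_chain (φ : E →ₐ[k] N) (r : ℕ) (F : ℕ → IntermediateField k N)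
    (h0 : F 0 = ⊥) (hr : F r = φ.fieldRange) (hle : ∀ j ≤ r, F j ≤ φ.fieldRange)
    (hF : ∀ j < r, ∃ h : F j ≤ F (j + 1), IsGalois (F j) (IntermediateField.extendScalars h) ∧
      IsCyclic (IntermediateField.extendScalars h ≃ₐ[F j] IntermediateField.extendScalars h)) :
    IsCyclicTower k E := by
  refine ⟨r, fun j => (F j).comap φ, ?_, ?_, fun j hj => ?_⟩
  · change (F 0).comap φ = ⊥
    rw [h0, eq_bot_iff]
    intro x hx
    have h1 : φ x ∈ (⊥ : IntermediateField k N) := hx
    obtain ⟨c, hc⟩ := IntermediateField.mem_bot.1 h1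
    rw [IntermediateField.mem_bot]
    exact ⟨c, φ.injective ((φ.commutes c).trans hc)⟩
  · change (F r).comap φ = ⊤
    rw [hr, eq_top_iff]
    intro x _
    exact ⟨x, rfl⟩
  · obtain ⟨h, h1, h2⟩ := hF j hj
    exact step_comap φ (hle (j + 1) hj) h h1 h2

end Pool.Agent.H72.TW
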