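import Pool.Agent.H72.TW.Defs

/-!
# Calculus of class functions
-/

open Module

namespace Pool.Agent.H72.TW

open Pool.Agent.H78.TT Pool.Agent.H72.SB

variable {k Ω : Type*} [Field k] [Field Ω] [Algebra k Ω] {n : ℕ}
variable {θ : Fin n → Ω} {K K' : IntermediateField k Ω} {ι : Type*}
  {c c' φ ψ : Fin n → Ω} {F G : Fin n → Fin n → Ω} {S : Fin n → Fin n} {d : ℕ}

open Classical in
/-- The indicator of `c i = c' j`. -/
noncomputable def ind (c c' : Fin n → Ω) (i j : Fin n) : Ω := if c i = c' j then 1 else 0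

theorem ind_pos {i j : Fin n} (h : c i = c' j) : ind c c' i j = 1 := if_pos h

theorem ind_neg {i j : Fin n} (h : c i ≠ c' j) : ind c c' i j = 0 := if_neg h

theorem R1.mono (hK : K ≤ K') (h : R1 θ K φ) : R1 θ K' φ := IsR.mono hK h

theorem R2.mono (hK : K ≤ K') (h : R2 θ K F) : R2 θ K' F := IsR.mono hK h

theorem R1.at (h : R1 θ K φ) (a : ι) : IsR θ K ι (fun x => φ (x a)) :=
  IsR.comp h (fun _ => a)

theorem R2.at (h : R2 θ K F) (a b : ι) : IsR θ K ι (fun x => F (x a) (x b)) :=
  IsR.comp h ![a, b]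

theorem R1.mul (h : R1 θ K φ) (h' : R1 θ K ψ) : R1 θ K (fun i => φ i * ψ i) := IsR.mul h h'

theorem R1.inv (hp : Pol k θ) (h : R1 θ K φ) : R1 θ K (fun i => (φ i)⁻¹) := IsR.inv0 hp h

theorem R1.div (hp : Pol k θ) (h : R1 θ K φ) (h' : R1 θ K ψ) : R1 θ K (fun i => φ i / ψ i) :=
  IsR.div hp h h'

theorem R1.one : R1 θ K (fun _ => 1) := isR_const 1 K.one_mem

theorem R1.congr (h : R1 θ K φ) (h' : ∀ i, ψ i = φ i) : R1 θ K ψ := IsR.congr h fun x => h' (x 0)

theorem R2.congr (h : R2 θ K F) (h' : ∀ i j, G i j = F i j) : R2 θ K G :=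
  IsR.congr h fun x => h' (x 0) (x 1)

theorem R2.mul (h : R2 θ K F) (h' : R2 θ K G) : R2 θ K (fun i j => F i j * G i j) := IsR.mul h h'

theorem R2.add (h : R2 θ K F) (h' : R2 θ K G) : R2 θ K (fun i j => F i j + G i j) := IsR.add h h'

theorem R2.neg (h : R2 θ K F) : R2 θ K (fun i j => - F i j) := IsR.neg h

theorem R2.inv (hp : Pol k θ) (h : R2 θ K F) : R2 θ K (fun i j => (F i j)⁻¹) := IsR.inv0 hp h

theorem R2.div (hp : Pol k θ) (h : R2 θ K F) (h' : R2 θ K G) :
    R2 θ K (fun i j => F i j / G i j) := IsR.div hp h h'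

theorem R2.pow (h : R2 θ K F) (m : ℕ) : R2 θ K (fun i j => F i j ^ m) := IsR.pow h m

theorem R1.left (h : R1 θ K φ) : R2 θ K (fun i _ => φ i) := R1.at h 0

theorem R1.right (h : R1 θ K φ) : R2 θ K (fun _ j => φ j) := R1.at h 1

theorem R2.diag (h : R2 θ K F) : R1 θ K (fun i => F i i) := R2.at h 0 0

theorem R2.sum (hp : Pol k θ) (hθ : Function.Injective θ) (h : R2 θ K F) :
    R1 θ K (fun i => ∑ j, F i j) := by
  have h1 := IsR.sum_last hp hθ (r := 1) h
  exact h1.congr fun x => rfl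

theorem R2.ind (hp : Pol k θ) (h : R1 θ K c) (h' : R1 θ K c') : R2 θ K (ind c c') := by
  have h1 : R2 θ K (fun i j => c i + - c' j) := R2.add h.left h'.right.neg
  have h2 : R2 θ K (fun i j => 1 + - ((c i + - c' j) * (c i + - c' j)⁻¹)) :=
    R2.add (R1.one.left) (R2.neg (h1.mul (h1.inv hp)))
  refine h2.congr fun i j => ?_
  by_cases h3 : c i = c' j
  · rw [ind_pos h3, h3, add_neg_cancel, zero_mul, neg_zero, add_zero]
  · have h4 : c i + - c' j ≠ 0 := by
      rw [← sub_eq_add_neg]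
      exact sub_ne_zero.2 h3
    rw [ind_neg h3, mul_inv_cancel₀ h4, add_neg_cancel]

/-- Rational functions of `r` indices with finitely many linear forms not zero. -/
theorem exists_rat_lin [Infinite k] (hp : Pol k θ) (hθ : Function.Injective θ) {r : ℕ}
    {q : Type*} [Fintype q] (L : q → ((Fin r → Fin n) → Ω) →ₗ[Ω] Ω) (hL : ∀ a, ∃ f, L a f ≠ 0) :
    ∃ f : (Fin r → Fin n) → Ω, IsR θ (⊥ : IntermediateField k Ω) (Fin r) f ∧ ∀ a, L a f ≠ 0 := by
  classical
  have hinf : Infinite Ω := Infinite.of_injective (algebraMap k Ω) (algebraMap k Ω).injective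
  obtain ⟨β, hβ⟩ := exists_basR hp hθ r
  have key : ∀ s : Finset q, LineOpen Ω (fun f => ∀ a ∈ s, L a f ≠ 0) ∧
      ∃ f, ∀ a ∈ s, L a f ≠ 0 := by
    intro s
    induction s using Finset.induction_on with
    | empty =>
      refine ⟨?_, 0, fun a ha => absurd ha (Finset.notMem_empty a)⟩
      intro x y _
      refine Set.Finite.subset Set.finite_empty fun t ht => ?_
      exact ht fun a ha => absurd ha (Finset.notMem_empty a)
    | insert a s ha ih =>
      have h1 : LineOpen Ω (fun f => L a f ≠ 0) := (polyLine_linear (L a)).lineOpen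
      obtain ⟨x, hx⟩ := ih.2
      obtain ⟨y, hy⟩ := hL a
      have h2 := h1.and ih.1
      obtain ⟨z, hz1, hz2⟩ := LineOpen.exists_common h1 ih.1 ⟨y, hy⟩ ⟨x, hx⟩
      refine ⟨?_, z, ?_⟩
      · have e : (fun f => ∀ b ∈ insert a s, L b f ≠ 0) =
            fun f => L a f ≠ 0 ∧ ∀ b ∈ s, L b f ≠ 0 := by
          funext f
          rw [Finset.forall_mem_insert]
        rw [e]
        exact h2
      · rw [Finset.forall_mem_insert]
        exact ⟨hz1, hz2⟩
  obtain ⟨h1, f0, hf0⟩ := key Finset.univ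
  obtain ⟨f, hf, hf1⟩ := LineOpen.exists_rat (k := k) β h1 ⟨f0, hf0⟩
  exact ⟨f, (hβ _ _).1 hf, fun a => hf1 a (Finset.mem_univ a)⟩

/-- A function with sum `1` over every class. -/
theorem exists_tr [Infinite k] (hp : Pol k θ) (hθ : Function.Injective θ)
    (hc : R1 θ (⊥ : IntermediateField k Ω) c) :
    ∃ a : Fin n → Ω, R1 θ (⊥ : IntermediateField k Ω) a ∧ ∀ i, ∑ l, ind c c i l * a l = 1 := by
  classical
  let L : Fin n → ((Fin 1 → Fin n) → Ω) →ₗ[Ω] Ω := fun i =>
    ∑ l, ind c c i l • LinearMap.proj (fun _ : Fin 1 => l)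
  have hLf : ∀ i f, L i f = ∑ l, ind c c i l * f (fun _ => l) := by
    intro i f
    simp only [L, LinearMap.sum_apply, LinearMap.smul_apply, LinearMap.proj_apply, smul_eq_mul]
  obtain ⟨f, hf, hf0⟩ := exists_rat_lin (k := k) hp hθ L (fun i => by
    refine ⟨Pi.single (fun _ => i) 1, ?_⟩
    rw [hLf, Finset.sum_eq_single i]
    · rw [ind_pos rfl, Pi.single_eq_same, mul_one]
      exact one_ne_zero
    · intro b _ hb
      rw [Pi.single_eq_of_ne, mul_zero]
      intro h
      exact hb (congrFun h 0)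
    · intro h
      exact absurd (Finset.mem_univ i) h)
  have hb : R1 θ (⊥ : IntermediateField k Ω) (fun l => f fun _ => l) := by
    refine IsR.congr hf fun x => ?_
    change f (fun _ => x 0) = f x
    congr 1
    funext a
    rw [Subsingleton.elim a 0]
  have hB : R1 θ (⊥ : IntermediateField k Ω) (fun i => ∑ l, ind c c i l * f (fun _ => l)) :=
    R2.sum hp hθ ((R2.ind hp hc hc).mul hb.right)
  refine ⟨fun l => f (fun _ => l) / ∑ l', ind c c l l' * f (fun _ => l'), hb.div hp hB,
    fun i => ?_⟩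
  have h1 : ∀ l, ind c c i l * (f (fun _ => l) / ∑ l', ind c c l l' * f (fun _ => l')) =
      ind c c i l * f (fun _ => l) / ∑ l', ind c c i l' * f (fun _ => l') := by
    intro l
    by_cases h : c i = c l
    · have h2 : ∀ l', ind c c i l' = ind c c l l' := fun l' => by
        unfold ind
        rw [h]
      simp only [h2]
      rw [mul_div_assoc]
    · rw [ind_neg h, zero_mul, zero_mul, zero_div]
  rw [Finset.sum_congr rfl fun l _ => h1 l, ← Finset.sum_div, div_self]
  have h3 := hf0 i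
  rwa [hLf] at h3

/-- `ψ` is constant on the classes of `c'`, and `ψ i * [c' l = c'' i]` is rational: then `ψ` is. -/
theorem R1.of_ind [Infinite k] (hp : Pol k θ) (hθ : Function.Injective θ)
    (hc' : R1 θ (⊥ : IntermediateField k Ω) c') {T : Fin n → Fin n}
    (h : R2 θ K (fun i l => Pool.Agent.H72.TW.ind (fun i => c' (T i)) c' i l * ψ i)) :
    R1 θ K ψ := by
  obtain ⟨a, ha, ha1⟩ := exists_tr (k := k) hp hθ hc'
  have h1 := R2.sum hp hθ (h.mul (ha.mono bot_le).right)
  refine h1.congr fun i => ?_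
  have h2 := ha1 (T i)
  calc ψ i = ψ i * ∑ l, ind c' c' (T i) l * a l := by rw [h2, mul_one]
    _ = _ := by
      rw [Finset.mul_sum]
      refine Finset.sum_congr rfl fun l _ => ?_
      unfold ind
      ring

/-- Shift of a class function. -/
theorem R1.shift [Infinite k] (hp : Pol k θ) (hθ : Function.Injective θ)
    (L : Layer k θ c c' S d) (hφ : R1 θ K φ) (hcl : ∀ i j, c' i = c' j → φ i = φ j) :
    R1 θ K (fun i => φ (S i)) := by
  refine R1.of_ind hp hθ L.rat (T := S) ?_
  have h1 : R2 θ K (fun i l => Pool.Agent.H72.TW.ind (fun i => c' (S i)) c' i l * φ l) :=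
    (((R2.ind hp L.ratS L.rat).mono bot_le).mul hφ.right)
  refine h1.congr fun i l => ?_
  by_cases h : c' (S i) = c' l
  · rw [hcl _ _ h]
  · rw [ind_neg (c := fun i => c' (S i)) h, zero_mul, zero_mul]

theorem Layer.shift_iter (L : Layer k θ c c' S d) (s : ℕ) {i j : Fin n} (h : c' i = c' j) :
    c' (S^[s] i) = c' (S^[s] j) := by
  induction s generalizing i j with
  | zero => exact h
  | succ s ih =>
    rw [Function.iterate_succ_apply, Function.iterate_succ_apply]
    exact ih (L.shift _ _ h)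

theorem R1.shift_iter [Infinite k] (hp : Pol k θ) (hθ : Function.Injective θ)
    (L : Layer k θ c c' S d) (hφ : R1 θ K φ) (hcl : ∀ i j, c' i = c' j → φ i = φ j) (s : ℕ) :
    R1 θ K (fun i => φ (S^[s] i)) := by
  induction s with
  | zero => exact hφ
  | succ s ih =>
    have h1 := R1.shift hp hθ L (φ := fun i => φ (S^[s] i)) ih
      (fun i j h => hcl _ _ (L.shift_iter s h))
    exact h1.congr fun i => by rw [Function.iterate_succ_apply]

end Pool.Agent.H72.TW
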