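import Pool.Agent.H78.TT.RLine

/-!
# Towers of cyclic layers

`θ : Fin n → Ω` are the roots of a polynomial over `k`, `c : Fin n → Ω` is a rational function of an
index; its classes are the sets of indices with the same value. A layer from `c` to a finer `c'`: a
shift `S` of the indices, which permutes the classes of `c'` in a class of `c` cyclically.
-/

namespace Pool.Agent.H72.TW

open Pool.Agent.H78.TT

variable {k Ω : Type*} [Field k] [Field Ω] [Algebra k Ω] {n : ℕ}

/-- The function `φ` of one index is rational over `K`. -/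
def R1 (θ : Fin n → Ω) (K : IntermediateField k Ω) (φ : Fin n → Ω) : Prop :=
  IsR θ K (Fin 1) (fun x => φ (x 0))

/-- The function `F` of two indices is rational over `K`. -/
def R2 (θ : Fin n → Ω) (K : IntermediateField k Ω) (F : Fin n → Fin n → Ω) : Prop :=
  IsR θ K (Fin 2) (fun x => F (x 0) (x 1))

/-- One cyclic layer: `c'` is finer than `c`, the shift `S` acts on the classes of `c'`, it preserves
the classes of `c`, and the classes of `c'` in a class of `c` are one orbit, of period `d`. -/
structure Layer (k : Type*) {Ω : Type*} [Field k] [Field Ω] [Algebra k Ω] {n : ℕ} (θ : Fin n → Ω)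
    (c c' : Fin n → Ω) (S : Fin n → Fin n) (d : ℕ) : Prop where
  rat : R1 θ (⊥ : IntermediateField k Ω) c'
  ratS : R1 θ (⊥ : IntermediateField k Ω) (fun i => c' (S i))
  fine : ∀ i j, c' i = c' j → c i = c j
  shift : ∀ i j, c' i = c' j → c' (S i) = c' (S j)
  coarse : ∀ i, c (S i) = c i
  per : ∀ i, c' (S^[d] i) = c' i
  trans : ∀ i j, c i = c j → ∃ s < d, c' j = c' (S^[s] i)

/-- A tower of layers of periods prime to `m`, from `c` to a function with distinct values. -/
inductive Tow (k : Type*) {Ω : Type*} [Field k] [Field Ω] [Algebra k Ω] {n : ℕ} (θ : Fin n → Ω)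
    (m : ℕ) : (Fin n → Ω) → Prop
  | top {c : Fin n → Ω} : Function.Injective c → Tow k θ m c
  | step {c c' : Fin n → Ω} {S : Fin n → Fin n} {d : ℕ} : Layer k θ c c' S d → m.Coprime d →
      R1 θ (⊥ : IntermediateField k Ω) c → Tow k θ m c' → Tow k θ m c

end Pool.Agent.H72.TW
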