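import Pool.Agent.H78.TT.ExDat
import Pool.Agent.H49.GSB.Index

/-!
# Separable maximal subfields of division algebras

`A = M_r(C)`, `C` a division algebra of degree `d` over the infinite field `k`. There is `a` in `C`
whose image in `M_d(Ω)` has distinct eigenvalues `θ i` (`exists_eig`). Its characteristic polynomial
has coefficients in `k` (`coeff_mem`) and is the minimal polynomial of `a`. So `k(a)` is a separable
field extension of degree `d`.
-/

open Module Matrix

universe u

namespace Pool.Agent.H72.TW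

open Pool.Agent.H72.SB Pool.Agent.H78.TT

variable {k : Type u} [Field k]

private theorem Max_range {Ω : Type*} [Field Ω] [Algebra k Ω] {n : ℕ} {ι : Type*} [Fintype ι]
    {A : Type*} [Ring A] [Algebra k A]
    {β : Basis ι Ω (Matrix (Fin n) (Fin n) Ω)} {ρ : A →ₐ[k] Matrix (Fin n) (Fin n) Ω}
    {b : Basis ι k A} (hρ : ∀ i, β i = ρ (b i)) (X : Matrix (Fin n) (Fin n) Ω)
    (hX : RatV β (⊥ : IntermediateField k Ω) X) : ∃ a, ρ a = X := by
  choose c hc using fun i => IntermediateField.mem_bot.1 (hX i)
  refine ⟨∑ i, c i • b i, ?_⟩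
  rw [← β.sum_repr X, map_sum]
  refine Finset.sum_congr rfl fun i _ => ?_
  rw [map_smul, ← hρ i, ← hc i, algebraMap_smul]

/-- `g(X) = 0` gives `g(θ i) = 0`. -/
private theorem Max_root {Ω : Type*} [Field Ω] {n : ℕ} {X P : Matrix (Fin n) (Fin n) Ω}
    {θ : Fin n → Ω} (hP : IsUnit P) (hPX : P * X = Matrix.diagonal θ * P) (g : Polynomial Ω)
    (hg : Polynomial.aeval X g = 0) (i : Fin n) : g.eval (θ i) = 0 := by
  have hpow : ∀ m : ℕ, P * X ^ m = Matrix.diagonal θ ^ m * P := by
    intro m
    induction m with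
    | zero => rw [pow_zero, pow_zero, mul_one, one_mul]
    | succ m ih => rw [pow_succ, ← mul_assoc, ih, mul_assoc, hPX, ← mul_assoc, ← pow_succ]
  have hag : P * Polynomial.aeval X g = Polynomial.aeval (Matrix.diagonal θ) g * P := by
    rw [Polynomial.aeval_eq_sum_range, Polynomial.aeval_eq_sum_range, Finset.mul_sum,
      Finset.sum_mul]
    refine Finset.sum_congr rfl fun m _ => ?_
    rw [Matrix.mul_smul, Matrix.smul_mul, hpow]
  rw [hg, mul_zero] at hag
  have h0 : Polynomial.aeval (Matrix.diagonal θ) g = 0 := by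
    obtain ⟨u, rfl⟩ := hP
    have h1 := congrArg (fun Y => Y * (u⁻¹ : (Matrix (Fin n) (Fin n) Ω)ˣ).1) hag
    simp only [zero_mul, mul_assoc, Units.mul_inv, mul_one] at h1
    exact h1.symm
  have h2 := congrFun (congrFun h0 i) i
  rw [Polynomial.aeval_eq_sum_range, Matrix.sum_apply] at h2
  rw [Polynomial.eval_eq_sum_range]
  rw [← (show (0 : Matrix (Fin n) (Fin n) Ω) i i = 0 from rfl), ← h2]
  refine Finset.sum_congr rfl fun m _ => ?_
  rw [Matrix.smul_apply, Matrix.diagonal_pow, Matrix.diagonal_apply_eq]
  rfl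

private theorem Max_core [Infinite k] (C : CSA.{u, u} k) (hdiv : ∀ x : C, x ≠ 0 → IsUnit x)
    {d : ℕ} (hC : finrank k C = d ^ 2) :
    ∃ (E : Type u) (_ : Field E) (_ : Algebra k E), FiniteDimensional k E ∧
      Algebra.IsSeparable k E ∧ finrank k E = d ∧ Nonempty (E →ₐ[k] C) := by
  classical
  obtain ⟨ρ, b, β, hβ, -⟩ := exists_form (Ω := AlgebraicClosure k) C hC
  obtain ⟨X, hX, P, θ, hP, hθ, hPX⟩ := exists_eig (k := k) β
  obtain ⟨a, ha⟩ := Max_range hβ X hX
  have hd0 : d ≠ 0 := by
    rintro rfl
    have h0 : 0 < finrank k C := Module.finrank_pos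
    rw [hC] at h0
    simp at h0
  have : NeZero d := ⟨hd0⟩
  have hρ : Function.Injective ρ := ρ.toRingHom.injective
  have hroot := Max_root hP hPX
  -- a polynomial of degree less than `d` which kills `X` is zero
  have hzero : ∀ g : Polynomial (AlgebraicClosure k), g.natDegree < d →
      Polynomial.aeval X g = 0 → g = 0 := by
    intro g hg1 hg2
    refine Polynomial.eq_zero_of_natDegree_lt_card_of_eval_eq_zero g hθ (hroot g hg2) ?_
    rw [Fintype.card_fin]
    exact hg1
  have hi : LinearIndependent (AlgebraicClosure k) (fun j : Fin d => X ^ (j : ℕ)) := by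
    rcases Nat.eq_zero_or_pos d with h0 | h0
    · subst h0
      exact linearIndependent_empty_type
    rw [Fintype.linearIndependent_iff]
    intro c hc q
    have hg := hzero (∑ j : Fin d, Polynomial.C (c j) * Polynomial.X ^ (j : ℕ)) (by
      refine lt_of_le_of_lt (Polynomial.natDegree_sum_le_of_forall_le Finset.univ _
        (n := d - 1) ?_) (Nat.sub_lt h0 one_pos)
      intro j _
      refine (Polynomial.natDegree_C_mul_X_pow_le _ _).trans ?_
      have := j.2
      omega) (by
      rw [← hc, map_sum]
      refine Finset.sum_congr rfl fun j _ => ?_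
      rw [map_mul, Polynomial.aeval_C, map_pow, Polynomial.aeval_X, Algebra.smul_def])
    have h1 := congrArg (fun g => Polynomial.coeff g (q : ℕ)) hg
    simp only [Polynomial.finsetSum_coeff, Polynomial.coeff_zero,
      Polynomial.coeff_C_mul_X_pow] at h1
    rw [Finset.sum_eq_single q] at h1
    · rw [if_pos rfl] at h1
      exact h1
    · intro j _ hj
      rw [if_neg fun h => hj (Fin.ext h.symm)]
    · exact fun h => absurd (Finset.mem_univ q) h
  have hdeg : X.charpoly.natDegree = d := by
    rw [Matrix.charpoly_natDegree_eq_dim, Fintype.card_fin]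
  have hXd : X ^ d = ∑ q : Fin d, (-X.charpoly.coeff (q : ℕ)) • X ^ (q : ℕ) := by
    have h1 := Matrix.aeval_self_charpoly X
    rw [(Matrix.charpoly_monic X).as_sum, hdeg, map_add, map_pow, Polynomial.aeval_X, map_sum,
      Finset.sum_range] at h1
    rw [eq_neg_of_add_eq_zero_left h1, ← Finset.sum_neg_distrib]
    refine Finset.sum_congr rfl fun q _ => ?_
    rw [map_mul, Polynomial.aeval_C, map_pow, Polynomial.aeval_X, neg_smul, Algebra.smul_def]
  have hrat : ∀ q : Fin d, -X.charpoly.coeff (q : ℕ) ∈ (⊥ : IntermediateField k (AlgebraicClosure k)) := by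
    intro q
    refine coeff_mem (β := β) (y := fun j : Fin d => X ^ (j : ℕ))
      (c := fun j : Fin d => -X.charpoly.coeff (j : ℕ)) (fun j => ?_) hi ?_ q
    · rw [← ha, ← map_pow]
      exact ratV_rho hβ _
    · rw [← hXd, ← ha, ← map_pow]
      exact ratV_rho hβ _
  choose c hc using fun q => IntermediateField.mem_bot.1 (hrat q)
  let f : Polynomial k := Polynomial.X ^ d - ∑ q : Fin d, Polynomial.C (c q) * Polynomial.X ^ (q : ℕ)
  have hfm : f.Monic := Polynomial.monic_X_pow_sub (Polynomial.degree_sum_fin_lt _)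
  have hfd : f.natDegree = d := by
    refine Polynomial.natDegree_eq_of_degree_eq_some ?_
    change (Polynomial.X ^ d - ∑ q : Fin d, Polynomial.C (c q) * Polynomial.X ^ (q : ℕ)).degree =
      ((d : ℕ) : WithBot ℕ)
    rw [Polynomial.degree_sub_eq_left_of_degree_lt, Polynomial.degree_X_pow]
    rw [Polynomial.degree_X_pow]
    exact Polynomial.degree_sum_fin_lt _
  have hfa : Polynomial.aeval a f = 0 := by
    apply hρ
    rw [map_zero, ← Polynomial.aeval_algHom_apply, ha, map_sub, map_pow, Polynomial.aeval_X, hXd,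
      map_sum, sub_eq_zero]
    refine Finset.sum_congr rfl fun q _ => ?_
    rw [map_mul, Polynomial.aeval_C, map_pow, Polynomial.aeval_X, ← hc q, algebraMap_smul,
      Algebra.smul_def]
  have hint : IsIntegral k a := ⟨f, hfm, hfa⟩
  -- the minimal polynomial
  have hmin : (minpoly k a).map (algebraMap k (AlgebraicClosure k)) =
      ∏ i, (Polynomial.X - Polynomial.C (θ i)) := by
    have hdvd : (∏ i, (Polynomial.X - Polynomial.C (θ i))) ∣
        (minpoly k a).map (algebraMap k (AlgebraicClosure k)) := by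
      refine Finset.prod_dvd_of_coprime ?_ ?_
      · intro i _ j _ h
        exact Polynomial.isCoprime_X_sub_C_of_isUnit_sub
          (sub_ne_zero.2 fun h' => h (hθ h')).isUnit
      · intro i _
        rw [Polynomial.dvd_iff_isRoot, Polynomial.IsRoot.def]
        refine hroot _ ?_ i
        rw [Polynomial.aeval_map_algebraMap, ← ha, Polynomial.aeval_algHom_apply, minpoly.aeval,
          map_zero]
    refine Polynomial.eq_of_monic_of_dvd_of_natDegree_le
      (Polynomial.monic_prod_of_monic _ _ fun i _ => Polynomial.monic_X_sub_C _)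
      ((minpoly.monic hint).map _) hdvd ?_
    rw [Polynomial.natDegree_map, Polynomial.natDegree_prod_of_monic _ _ fun i _ =>
      Polynomial.monic_X_sub_C _]
    simp only [Polynomial.natDegree_X_sub_C, Finset.sum_const, Finset.card_univ, Fintype.card_fin,
      smul_eq_mul, mul_one]
    rw [← hfd]
    exact Polynomial.natDegree_le_of_dvd (minpoly.dvd k a hfa) hfm.ne_zero
  have hmd : (minpoly k a).natDegree = d := by
    rw [← Polynomial.natDegree_map (algebraMap k (AlgebraicClosure k)), hmin,
      Polynomial.natDegree_prod_of_monic _ _ fun i _ => Polynomial.monic_X_sub_C _]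
    simp
  have hsep : (minpoly k a).Separable := by
    rw [← Polynomial.separable_map (algebraMap k (AlgebraicClosure k)), hmin,
      Polynomial.separable_prod_X_sub_C_iff]
    exact hθ
  have : NoZeroDivisors C := by
    constructor
    intro x y hxy
    by_contra! h
    have h1 := hdiv x h.1
    exact h.2 ((h1.mul_right_eq_zero).1 hxy)
  have : IsDomain C := NoZeroDivisors.to_isDomain _
  have hirr : Fact (Irreducible (minpoly k a)) := ⟨minpoly.irreducible hint⟩
  have hne : minpoly k a ≠ 0 := minpoly.ne_zero hint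
  have hroot' : minpoly k (AdjoinRoot.root (minpoly k a)) = minpoly k a := by
    rw [AdjoinRoot.minpoly_root hne, (minpoly.monic hint).leadingCoeff, inv_one, map_one, mul_one]
  have hfin : FiniteDimensional k (AdjoinRoot (minpoly k a)) :=
    (AdjoinRoot.powerBasis hne).finite
  refine ⟨AdjoinRoot (minpoly k a), inferInstance, inferInstance, hfin, ?_, ?_, ⟨?_⟩⟩
  · have h1 : Algebra.IsSeparable k
        (IntermediateField.adjoin k {AdjoinRoot.root (minpoly k a)}) := by
      rw [IntermediateField.isSeparable_adjoin_simple_iff_isSeparable]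
      change (minpoly k (AdjoinRoot.root (minpoly k a))).Separable
      rw [hroot']
      exact hsep
    have h2 : IntermediateField.adjoin k {AdjoinRoot.root (minpoly k a)} = ⊤ := by
      exact IntermediateField.adjoin_eq_top_of_algebra k _ AdjoinRoot.adjoinRoot_eq_top
    rw [h2] at h1
    exact AlgEquiv.Algebra.isSeparable IntermediateField.topEquiv
  · rw [(AdjoinRoot.powerBasis hne).finrank, AdjoinRoot.powerBasis_dim, hmd]
  · exact Ideal.Quotient.liftₐ _ (Polynomial.aeval a) (by
      intro g hg
      obtain ⟨q, rfl⟩ := Ideal.mem_span_singleton.1 hg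
      rw [map_mul, minpoly.aeval, zero_mul])

/-- Every central simple algebra of degree `n` is `M_r(C)`, where `C` contains a separable field
extension of degree `n / r`. -/
theorem exists_max [Infinite k] (A : CSA.{u, u} k) {n : ℕ} (hA : finrank k A = n ^ 2) :
    ∃ (r : ℕ) (C : CSA.{u, u} k) (E : Type u) (_ : Field E) (_ : Algebra k E),
      FiniteDimensional k E ∧ Algebra.IsSeparable k E ∧ n = r * finrank k E ∧
      Nonempty (A ≃ₐ[k] Matrix (Fin r) (Fin r) C) ∧ Nonempty (E →ₐ[k] C) := by
  obtain ⟨r, C, hr, hdiv, ⟨e⟩⟩ := Pool.Agent.H49.GSB.exists_division A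
  have h1 : n ^ 2 = r ^ 2 * finrank k C := by
    rw [← hA, e.toLinearEquiv.finrank_eq, Module.finrank_matrix, Fintype.card_fin]
    ring
  have h2 : r ∣ n := (Nat.pow_dvd_pow_iff two_ne_zero).1 ⟨_, h1⟩
  obtain ⟨d, rfl⟩ := h2
  have h3 : finrank k C = d ^ 2 := by
    rw [mul_pow] at h1
    exact (Nat.eq_of_mul_eq_mul_left (by positivity) h1).symm
  obtain ⟨E, i1, i2, hf, hs, hd, hφ⟩ := Max_core C hdiv h3
  exact ⟨r, C, E, i1, i2, hf, hs, by rw [hd], ⟨e⟩, hφ⟩

end Pool.Agent.H72.TW
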