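import Pool.Agent.H72.TW.Base

/-!
# One layer

`φ i = ∑ f i' l w i' l` over `i'` in the class of `i` and `l` in the class of `S i` is rational times
`w i l`, if `w` is rational on the pairs in one class. `N s i = ∏ u < s, φ (S^u i)`.
-/

open Module

namespace Pool.Agent.H72.TW

open Pool.Agent.H78.TT Pool.Agent.H72.SB

variable {k Ω : Type*} [Field k] [Field Ω] [Algebra k Ω] {n : ℕ}
variable {θ : Fin n → Ω} {K K₀ K' : IntermediateField k Ω} {ι : Type*}
  {c c' φ ψ t : Fin n → Ω} {F G f w : Fin n → Fin n → Ω} {S : Fin n → Fin n} {d m : ℕ}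

/-- `F` is rational on the pairs in one class. -/
def On (θ : Fin n → Ω) (c : Fin n → Ω) (K : IntermediateField k Ω) (F : Fin n → Fin n → Ω) : Prop :=
  R2 θ K (fun i l => ind c c i l * F i l)

/-- The sum over two classes. -/
noncomputable def phi (c' : Fin n → Ω) (S : Fin n → Fin n) (f w : Fin n → Fin n → Ω) (i : Fin n) :
    Ω :=
  ∑ i', ∑ l, ind c' c' i i' * ind (fun i => c' (S i)) c' i l * (f i' l * w i' l)

theorem ind_congr {c'' : Fin n → Ω} {i j l : Fin n} (h : c i = c'' j) :
    ind c c' i l = ind c'' c' j l := by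
  unfold ind
  rw [h]

theorem phi_class (L : Layer k θ c c' S d) (i j : Fin n) (h : c' i = c' j) :
    phi c' S f w i = phi c' S f w j := by
  have h1 := L.shift _ _ h
  unfold phi
  refine Finset.sum_congr rfl fun i' _ => Finset.sum_congr rfl fun l _ => ?_
  rw [ind_congr (c := c') (c'' := c') h,
    ind_congr (c := fun i => c' (S i)) (c'' := fun i => c' (S i)) h1]

theorem exists_phi [Infinite k] (hp : Pol k θ) (hθ : Function.Injective θ)
    (L : Layer k θ c c' S d) (hw : ∀ i j, w i j ≠ 0) :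
    ∃ f : Fin n → Fin n → Ω, R2 θ (⊥ : IntermediateField k Ω) f ∧ ∀ i, phi c' S f w i ≠ 0 := by
  classical
  let T : Fin n → ((Fin 2 → Fin n) → Ω) →ₗ[Ω] Ω := fun i =>
    ∑ i', ∑ l, (ind c' c' i i' * ind (fun i => c' (S i)) c' i l * w i' l) •
      LinearMap.proj (![i', l] : Fin 2 → Fin n)
  have hTf : ∀ i f, T i f = ∑ i', ∑ l, (ind c' c' i i' * ind (fun i => c' (S i)) c' i l *
      w i' l) * f ![i', l] := by
    intro i f
    simp only [T, LinearMap.sum_apply, LinearMap.smul_apply, LinearMap.proj_apply, smul_eq_mul]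
  obtain ⟨f, hf, hf0⟩ := exists_rat_lin (k := k) hp hθ T (fun i => by
    refine ⟨Pi.single ![i, S i] 1, ?_⟩
    rw [hTf, Finset.sum_eq_single i, Finset.sum_eq_single (S i)]
    · rw [ind_pos rfl, ind_pos (c := fun i => c' (S i)) rfl, Pi.single_eq_same, one_mul, one_mul,
        mul_one]
      exact hw _ _
    · intro b _ hb
      rw [Pi.single_eq_of_ne, mul_zero]
      intro h
      exact hb (congrFun h 1)
    · intro h
      exact absurd (Finset.mem_univ _) h
    · intro b _ hb
      refine Finset.sum_eq_zero fun l _ => ?_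
      rw [Pi.single_eq_of_ne, mul_zero]
      intro h
      exact hb (congrFun h 0)
    · intro h
      exact absurd (Finset.mem_univ _) h)
  refine ⟨fun i l => f ![i, l], hf.congr fun x => ?_, fun i => ?_⟩
  · change f ![x 0, x 1] = f x
    congr 1
    funext a
    fin_cases a <;> rfl
  · have h1 := hf0 i
    rw [hTf] at h1
    intro h2
    apply h1
    rw [← h2]
    unfold phi
    refine Finset.sum_congr rfl fun i' _ => Finset.sum_congr rfl fun l _ => ?_
    ring

theorem phi_rat (hp : Pol k θ) (hθ : Function.Injective θ)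
    (L : Layer k θ c c' S d) (hw : Coc θ w K) (hf : R2 θ (⊥ : IntermediateField k Ω) f)
    (hD : On θ c' K w) :
    R2 θ K (fun i l => ind (fun i => c' (S i)) c' i l * (phi c' S f w i / w i l)) := by
  have hI : R2 θ K (ind (fun i => c' (S i)) c') := (R2.ind hp L.ratS L.rat).mono bot_le
  have hg1 : IsR θ K (Fin 4) (fun x => w (x 2) (x 0) * w (x 0) (x 1) / w (x 2) (x 1)) :=
    (hw.gam.comp (![2, 0, 1] : Fin 3 → Fin 4)).congr fun x => rfl
  have hg2 : IsR θ K (Fin 4) (fun x => w (x 2) (x 1) * w (x 1) (x 3) / w (x 2) (x 3)) :=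
    (hw.gam.comp (![2, 1, 3] : Fin 3 → Fin 4)).congr fun x => rfl
  have h1 : IsR θ K (Fin 4) (fun x =>
      ind (fun i => c' (S i)) c' (x 0) (x 1) * ind (fun i => c' (S i)) c' (x 0) (x 3) *
      ((ind c' c' (x 2) (x 0) * w (x 2) (x 0)) * (ind c' c' (x 1) (x 3) * w (x 1) (x 3))) *
      f (x 2) (x 3) / ((w (x 2) (x 0) * w (x 0) (x 1) / w (x 2) (x 1)) *
        (w (x 2) (x 1) * w (x 1) (x 3) / w (x 2) (x 3)))) :=
    ((((hI.at 0 1).mul (hI.at 0 3)).mul ((hD.at 2 0).mul (hD.at 1 3))).mul
      ((hf.mono bot_le).at 2 3)).div hp (hg1.mul hg2)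
  have h2 := IsR.sum_last hp hθ (r := 2) (IsR.sum_last hp hθ (r := 3) h1)
  refine IsR.congr h2 fun x => ?_
  have e0 : ∀ a b : Fin n, (Fin.snoc (Fin.snoc x a : Fin 3 → Fin n) b : Fin 4 → Fin n) 0 = x 0 :=
    fun a b => rfl
  have e1 : ∀ a b : Fin n, (Fin.snoc (Fin.snoc x a : Fin 3 → Fin n) b : Fin 4 → Fin n) 1 = x 1 :=
    fun a b => rfl
  have e2 : ∀ a b : Fin n, (Fin.snoc (Fin.snoc x a : Fin 3 → Fin n) b : Fin 4 → Fin n) 2 = a :=
    fun a b => rfl
  have e3 : ∀ a b : Fin n, (Fin.snoc (Fin.snoc x a : Fin 3 → Fin n) b : Fin 4 → Fin n) 3 = b :=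
    fun a b => rfl
  simp only [e0, e1, e2, e3]
  generalize x 0 = i
  generalize x 1 = l
  unfold phi
  rw [Finset.sum_div, Finset.mul_sum]
  refine Finset.sum_congr rfl fun i' _ => ?_
  rw [Finset.sum_div, Finset.mul_sum]
  refine Finset.sum_congr rfl fun l' _ => ?_
  by_cases h3 : c' (S i) = c' l
  · by_cases h4 : c' (S i) = c' l'
    · by_cases h5 : c' i = c' i'
      · rw [ind_pos (c := fun i => c' (S i)) h3, ind_pos (c := fun i => c' (S i)) h4, ind_pos h5,
          ind_pos h5.symm, ind_pos (h3.symm.trans h4)]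
        have a1 := hw.ne i' i
        have a2 := hw.ne i l
        have a3 := hw.ne i' l
        have a4 := hw.ne l l'
        have a5 := hw.ne i' l'
        field_simp
      · rw [ind_neg h5, ind_neg (fun h => h5 h.symm)]
        simp
    · rw [ind_neg (c := fun i => c' (S i)) h4]
      simp
  · rw [ind_neg (c := fun i => c' (S i)) h3]
    simp

/-- The product of `φ` over the first `s` shifts. -/
def nn (S : Fin n → Fin n) (φ : Fin n → Ω) (s : ℕ) (i : Fin n) : Ω :=
  ∏ u ∈ Finset.range s, φ (S^[u] i)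

omit [Algebra k Ω] [Field k] in
theorem nn_succ (s : ℕ) (i : Fin n) : nn S φ (s + 1) i = nn S φ s i * φ (S^[s] i) :=
  Finset.prod_range_succ _ _

theorem nn_succ' (s : ℕ) (i : Fin n) : nn S φ (s + 1) i = nn S φ s (S i) * φ i := by
  unfold nn
  rw [Finset.prod_range_succ']
  rfl

theorem nn_add (a b : ℕ) (i : Fin n) : nn S φ (a + b) i = nn S φ a i * nn S φ b (S^[a] i) := by
  unfold nn
  rw [Finset.prod_range_add]
  congr 1
  refine Finset.prod_congr rfl fun u _ => ?_
  rw [add_comm a u, Function.iterate_add_apply]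

theorem nn_ne (hφ : ∀ i, φ i ≠ 0) (s : ℕ) (i : Fin n) : nn S φ s i ≠ 0 :=
  Finset.prod_ne_zero_iff.2 fun _ _ => hφ _

theorem nn_class (L : Layer k θ c c' S d) (hcl : ∀ i j, c' i = c' j → φ i = φ j) (s : ℕ)
    (i j : Fin n) (h : c' i = c' j) : nn S φ s i = nn S φ s j := by
  unfold nn
  refine Finset.prod_congr rfl fun u _ => hcl _ _ (L.shift_iter u h)

theorem isR_shift_iter (L : Layer k θ c c' S d) [Infinite k] (hp : Pol k θ)
    (hθ : Function.Injective θ) (s : ℕ) :
    R1 θ (⊥ : IntermediateField k Ω) (fun i => c' (S^[s] i)) :=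
  R1.shift_iter hp hθ L L.rat (fun _ _ h => h) s

/-- `N s i` is rational times `w i l`, for `l` in the class of `S^s i`. -/
theorem nn_rat [Infinite k] (hp : Pol k θ) (hθ : Function.Injective θ)
    (L : Layer k θ c c' S d) (hw : Coc θ w K) (hcl : ∀ i j, c' i = c' j → φ i = φ j)
    (hφ : R2 θ K (fun i l => ind (fun i => c' (S i)) c' i l * (φ i / w i l)))
    (hD : On θ c' K w) (s : ℕ) :
    R2 θ K (fun i l => ind (fun i => c' (S^[s] i)) c' i l * (nn S φ s i / w i l)) := by
  induction s with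
  | zero =>
    refine (R2.inv hp hD).congr fun i l => ?_
    by_cases h : c' i = c' l
    · rw [ind_pos (c := fun i => c' (S^[0] i)) h, ind_pos h]
      simp [nn]
    · rw [ind_neg (c := fun i => c' (S^[0] i)) h, ind_neg h]
      simp
  | succ s ih =>
    obtain ⟨a, ha, ha1⟩ := exists_tr (k := k) hp hθ L.rat
    have hg : IsR θ K (Fin 3) (fun x => w (x 0) (x 2) * w (x 2) (x 1) / w (x 0) (x 1)) :=
      (hw.gam.comp (![0, 2, 1] : Fin 3 → Fin 3)).congr fun x => rfl
    have h1 := IsR.sum_last hp hθ (r := 2)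
      ((((ha.mono (bot_le (a := K))).at (2 : Fin 3)).mul ((ih.at (0 : Fin 3) 2).mul
        (hφ.at (2 : Fin 3) 1))).mul hg)
    refine IsR.congr h1 fun x => ?_
    have e0 : ∀ a : Fin n, (Fin.snoc x a : Fin 3 → Fin n) 0 = x 0 := fun a => rfl
    have e1 : ∀ a : Fin n, (Fin.snoc x a : Fin 3 → Fin n) 1 = x 1 := fun a => rfl
    have e2 : ∀ a : Fin n, (Fin.snoc x a : Fin 3 → Fin n) 2 = a := fun a => rfl
    simp only [e0, e1, e2]
    generalize x 0 = i
    generalize x 1 = l
    have h2 := ha1 (S^[s] i)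
    have h3 : ∀ l1, a l1 * (ind (fun i => c' (S^[s] i)) c' i l1 * (nn S φ s i / w i l1) *
        (ind (fun i => c' (S i)) c' l1 l * (φ l1 / w l1 l))) *
        (w i l1 * w l1 l / w i l) =
        (ind c' c' (S^[s] i) l1 * a l1) * (ind (fun i => c' (S^[s + 1] i)) c' i l *
          (nn S φ (s + 1) i / w i l)) := by
      intro l1
      by_cases h4 : c' (S^[s] i) = c' l1
      · have h5 : c' (S l1) = c' (S^[s + 1] i) := by
          rw [Function.iterate_succ_apply']
          exact L.shift _ _ h4.symm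
        have h6 : ind (fun i => c' (S i)) c' l1 l = ind (fun i => c' (S^[s + 1] i)) c' i l :=
          ind_congr h5
        rw [h6, ind_pos (c := fun i => c' (S^[s] i)) h4, ind_pos h4, nn_succ, ← hcl _ _ h4]
        have a1 := hw.ne i l1
        have a2 := hw.ne l1 l
        have a3 := hw.ne i l
        field_simp
      · rw [ind_neg (c := fun i => c' (S^[s] i)) h4, ind_neg h4]
        simp
    rw [Finset.sum_congr rfl fun l1 _ => h3 l1, ← Finset.sum_mul, h2, one_mul]

/-- If `w` is rational on the pairs in a class of `c` then `φ` is rational. -/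
theorem phi_R1 [Infinite k] (hp : Pol k θ) (hθ : Function.Injective θ)
    (L : Layer k θ c c' S d) (hw : Coc θ w K)
    (hφ : R2 θ K (fun i l => ind (fun i => c' (S i)) c' i l * (φ i / w i l)))
    (hD : On θ c K w) : R1 θ K φ := by
  refine R1.of_ind hp hθ L.rat (T := S) ?_
  refine (R2.mul hφ hD).congr fun i l => ?_
  by_cases h : c' (S i) = c' l
  · have h1 : c i = c l := by
      rw [← L.coarse i]
      exact L.fine _ _ h
    rw [ind_pos (c := fun i => c' (S i)) h, ind_pos h1]
    have a1 := hw.ne i l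
    field_simp
  · rw [ind_neg (c := fun i => c' (S i)) h]
    simp

theorem On.fine (hp : Pol k θ) (L : Layer k θ c c' S d) (hD : On θ c K F) : On θ c' K F := by
  refine (R2.mul ((R2.ind hp L.rat L.rat).mono bot_le) hD).congr fun i l => ?_
  by_cases h : c' i = c' l
  · rw [ind_pos h, ind_pos (L.fine _ _ h)]
    ring
  · rw [ind_neg h]
    simp

theorem nn_R1 [Infinite k] (hp : Pol k θ) (hθ : Function.Injective θ)
    (L : Layer k θ c c' S d) (hcl : ∀ i j, c' i = c' j → φ i = φ j) (hφ : R1 θ K φ) (s : ℕ) :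
    R1 θ K (nn S φ s) :=
  IsR.prod _ fun u _ => R1.shift_iter hp hθ L hφ hcl u

/-- The norm trick. -/
theorem R1_of_nn [Infinite k] (hp : Pol k θ) (hθ : Function.Injective θ)
    (L : Layer k θ c c' S d) (hcl : ∀ i j, c' i = c' j → φ i = φ j) (hφ0 : ∀ i, φ i ≠ 0)
    (hm : R1 θ K (nn S φ m)) (hd : R1 θ K (nn S φ d)) {M e : ℕ} (h : m * M = d * e + 1) :
    R1 θ K φ := by
  have key : ∀ a, R1 θ K (nn S φ a) → ∀ v, R1 θ K (nn S φ (a * v)) := by
    intro a ha v
    induction v with
    | zero =>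
      refine R1.one.congr fun i => ?_
      simp [nn]
    | succ v ih =>
      have h1 := R1.shift_iter hp hθ L ih (nn_class L hcl _) a
      refine (ha.mul h1).congr fun i => ?_
      rw [Nat.mul_succ, add_comm, nn_add]
  have h1 := key m hm M
  rw [h] at h1
  have h2 := R1.shift hp hθ L (key d hd e) (nn_class L hcl _)
  refine (h1.div hp h2).congr fun i => ?_
  rw [nn_succ', mul_div_cancel_left₀]
  exact nn_ne hφ0 _ _

/-- `w` is rational on the pairs in a class of `c`, if `φ` is rational. -/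
theorem on_of_phi [Infinite k] (hp : Pol k θ) (hθ : Function.Injective θ)
    (L : Layer k θ c c' S d) (hw : Coc θ w K) (hcl : ∀ i j, c' i = c' j → φ i = φ j)
    (hφ0 : ∀ i, φ i ≠ 0)
    (hφ : R2 θ K (fun i l => ind (fun i => c' (S i)) c' i l * (φ i / w i l)))
    (hD : On θ c' K w) (hR : R1 θ K φ) : On θ c K w := by
  classical
  have hF : ∀ s, R2 θ K (fun i l => ind (fun i => c' (S^[s] i)) c' i l * w i l) := by
    intro s
    refine (R2.mul ((nn_rat hp hθ L hw hcl hφ hD s).inv hp) (nn_R1 hp hθ L hcl hR s).left).congr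
      fun i l => ?_
    by_cases h : c' (S^[s] i) = c' l
    · rw [ind_pos (c := fun i => c' (S^[s] i)) h]
      have a1 := hw.ne i l
      have a2 := nn_ne (S := S) hφ0 s i
      field_simp
    · rw [ind_neg (c := fun i => c' (S^[s] i)) h]
      simp
  have hI : ∀ s, R2 θ K (ind (fun i => c' (S^[s] i)) c') := fun s =>
    (R2.ind hp (isR_shift_iter L hp hθ s) L.rat).mono bot_le
  have hG : ∀ s, R2 θ K (fun i l => if ∃ u < s, c' (S^[u] i) = c' l then w i l else 0) := by
    intro s
    induction s with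
    | zero =>
      refine R2.congr (F := fun _ _ => 0) (isR_const 0 K.zero_mem) fun i l => ?_
      rw [if_neg]
      rintro ⟨u, hu, _⟩
      omega
    | succ s ih =>
      refine ((ih.add (hF s)).add (ih.mul (hI s)).neg).congr fun i l => ?_
      have e : (∃ u < s + 1, c' (S^[u] i) = c' l) ↔
          (∃ u < s, c' (S^[u] i) = c' l) ∨ c' (S^[s] i) = c' l := by
        constructor
        · rintro ⟨u, hu, h⟩
          rcases Nat.lt_succ_iff_lt_or_eq.1 hu with h1 | h1
          · exact Or.inl ⟨u, h1, h⟩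
          · rw [h1] at h
            exact Or.inr h
        · rintro (⟨u, hu, h⟩ | h)
          · exact ⟨u, by omega, h⟩
          · exact ⟨s, by omega, h⟩
      by_cases h1 : ∃ u < s, c' (S^[u] i) = c' l <;> by_cases h2 : c' (S^[s] i) = c' l
      · rw [if_pos (e.2 (Or.inl h1)), if_pos h1, ind_pos (c := fun i => c' (S^[s] i)) h2]
        ring
      · rw [if_pos (e.2 (Or.inl h1)), if_pos h1, ind_neg (c := fun i => c' (S^[s] i)) h2]
        ring
      · rw [if_pos (e.2 (Or.inr h2)), if_neg h1, ind_pos (c := fun i => c' (S^[s] i)) h2]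
        ring
      · rw [if_neg (fun h => (e.1 h).elim h1 h2), if_neg h1,
          ind_neg (c := fun i => c' (S^[s] i)) h2]
        ring
  have hcS : ∀ u i, c (S^[u] i) = c i := by
    intro u
    induction u with
    | zero => exact fun i => rfl
    | succ u ih =>
      intro i
      rw [Function.iterate_succ_apply, ih, L.coarse]
  refine (hG d).congr fun i l => ?_
  by_cases h : c i = c l
  · obtain ⟨s, hs, h1⟩ := L.trans i l h
    rw [ind_pos h, one_mul, if_pos ⟨s, hs, h1.symm⟩]
  · rw [ind_neg h, zero_mul, if_neg]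
    rintro ⟨u, _, h1⟩
    exact h (by rw [← hcS u i]; exact L.fine _ _ h1)

/-- The product of the `N s`. -/
def mm (S : Fin n → Fin n) (φ : Fin n → Ω) (m : ℕ) (i : Fin n) : Ω :=
  ∏ s ∈ Finset.range m, nn S φ s i

theorem mm_shift (m : ℕ) (i : Fin n) :
    mm S φ m (S i) * φ i ^ m = mm S φ m i * nn S φ m i := by
  unfold mm
  have h1 : φ i ^ m = ∏ _s ∈ Finset.range m, φ i := by
    rw [Finset.prod_const, Finset.card_range]
  have h2 : nn S φ m i = ∏ s ∈ Finset.range m, φ (S^[s] i) := rfl
  rw [h1, h2, ← Finset.prod_mul_distrib, ← Finset.prod_mul_distrib]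
  refine Finset.prod_congr rfl fun s _ => ?_
  rw [← nn_succ', nn_succ]

theorem mm_ne (hφ : ∀ i, φ i ≠ 0) (m : ℕ) (i : Fin n) : mm S φ m i ≠ 0 :=
  Finset.prod_ne_zero_iff.2 fun _ _ => nn_ne hφ _ _

/-- `t` is good for `c`. -/
structure Good (θ : Fin n → Ω) (w : Fin n → Fin n → Ω) (K₀ : IntermediateField k Ω) (m : ℕ)
    (c t : Fin n → Ω) : Prop where
  ne : ∀ j, t j ≠ 0
  rat : ∀ K, K₀ ≤ K → On θ c K w → R1 θ K t
  back : ∀ K, K₀ ≤ K → On θ c K (fun i l => w i l ^ m * (t l / t i)) → On θ c K w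

theorem good_step [Infinite k] (hp : Pol k θ) (hθ : Function.Injective θ)
    (L : Layer k θ c c' S d) (hw : Coc θ w K₀) (hm : 1 ≤ m) (hmd : m.Coprime d)
    (hG : Good θ w K₀ m c' t) : ∃ t', Good θ w K₀ m c t' := by
  obtain ⟨f, hf, hf0⟩ := exists_phi hp hθ L hw.ne
  set φ := phi c' S f w with hφdef
  have hcl : ∀ i j, c' i = c' j → φ i = φ j := phi_class L
  have hφ : ∀ K, K₀ ≤ K → On θ c' K w →
      R2 θ K (fun i l => ind (fun i => c' (S i)) c' i l * (φ i / w i l)) := fun K hK hD =>
    phi_rat hp hθ L (hw.mono hK) hf hD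
  have hmcl : ∀ i j, c' i = c' j → mm S φ m i = mm S φ m j := fun i j h =>
    Finset.prod_congr rfl fun s _ => nn_class L hcl s i j h
  have hM0 := mm_ne (S := S) hf0 m
  refine ⟨fun i => t i * mm S φ m i, fun j => mul_ne_zero (hG.ne j) (hM0 j),
    fun K hK hD => ?_, fun K hK hD => ?_⟩
  · have hD' := hD.fine hp L
    have hR : R1 θ K φ := phi_R1 hp hθ L (hw.mono hK) (hφ K hK hD') hD
    exact (hG.rat K hK hD').mul (IsR.prod _ fun s _ => nn_R1 hp hθ L hcl hR s)
  · have hD1 : On θ c' K (fun i l => w i l ^ m * (t l / t i)) := by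
      refine (hD.fine hp L).congr fun i l => ?_
      dsimp only
      by_cases h : c' i = c' l
      · rw [ind_pos h, hmcl i l h]
        have a1 := hM0 l
        have a2 := hG.ne i
        field_simp
      · rw [ind_neg h]
        simp
    have hD' := hG.back K hK hD1
    have hT := hG.rat K hK hD'
    have hφK := hφ K hK hD'
    have hwK := hw.mono hK
    have hNm : R1 θ K (nn S φ m) := by
      refine R1.of_ind hp hθ L.rat (T := S) ?_
      refine ((R2.mul hD (hφK.pow m)).mul (hT.left.div hp hT.right)).congr fun i l => ?_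
      dsimp only
      by_cases h : c' (S i) = c' l
      · have h1 : c i = c l := by
          rw [← L.coarse i]
          exact L.fine _ _ h
        rw [ind_pos (c := fun i => c' (S i)) h, ind_pos h1, ← hmcl _ _ h]
        have h2 := mm_shift (S := S) (φ := φ) m i
        have a1 := hM0 i
        have a2 := hG.ne i
        have a3 := hG.ne l
        have a4 := hwK.ne i l
        rw [one_mul, one_mul, one_mul, div_pow]
        have h3 : nn S φ m i = mm S φ m (S i) * φ i ^ m / mm S φ m i := by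
          rw [h2, mul_div_cancel_left₀ _ a1]
        rw [h3]
        field_simp
      · rw [ind_neg (c := fun i => c' (S i)) h]
        rcases Nat.exists_eq_succ_of_ne_zero (by omega : m ≠ 0) with ⟨m', rfl⟩
        simp
    have hNd : R1 θ K (nn S φ d) := by
      have h1 := (nn_rat hp hθ L hwK hcl hφK hD' d).diag
      refine (h1.mul (ψ := fun i => w i i) hwK.diag).congr fun i => ?_
      rw [ind_pos (c := fun i => c' (S^[d] i)) (L.per i)]
      have a1 := hwK.ne i i
      field_simp
    obtain ⟨M, e, hMe⟩ : ∃ M e : ℕ, m * M = d * e + 1 := by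
      rcases Nat.lt_or_ge 1 d with h1 | h1
      · obtain ⟨M, _, hM⟩ := Nat.exists_mul_mod_eq_one_of_coprime hmd h1
        refine ⟨M, m * M / d, ?_⟩
        have h2 := Nat.div_add_mod (m * M) d
        rw [hM] at h2
        exact h2.symm
      · interval_cases d
        · rw [Nat.coprime_zero_right] at hmd
          exact ⟨1, 0, by rw [hmd]⟩
        · exact ⟨1, m - 1, by omega⟩
    exact on_of_phi hp hθ L hwK hcl hf0 hφK hD' (R1_of_nn hp hθ L hcl hf0 hNm hNd hMe)

end Pool.Agent.H72.TW
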