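import Pool.Agent.H72.TW.Trans

/-!
# Fields whose separable extensions have degree a power of `p`
-/

open Module

universe u

namespace Pool.Agent.H72.TW

/-- The chain of subgroups from `K` down to `H` in a finite `p`-group. -/
theorem exists_chain_pgroup {p : ℕ} [Fact p.Prime] {G : Type*} [Group G] [Finite G]
    (hG : IsPGroup p G) (H K : Subgroup G) (hHK : H ≤ K) :
    ∃ (r : ℕ) (T : ℕ → Subgroup G), T 0 = K ∧ T r = H ∧ (∀ j ≤ r, H ≤ T j) ∧
      ∀ j < r, T (j + 1) ≤ T j ∧ ∃ _ : ((T (j + 1)).subgroupOf (T j)).Normal,
        IsCyclic (T j ⧸ (T (j + 1)).subgroupOf (T j)) := by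
  induction hc : Nat.card K using Nat.strong_induction_on generalizing K with
  | _ c ih =>
    by_cases hne : H = K
    · exact ⟨0, fun _ => K, rfl, hne.symm, fun _ _ => hHK, fun j hj => absurd hj (Nat.not_lt_zero j)⟩
    · have hH' : H.subgroupOf K ≠ ⊤ := by
        rw [Ne, Subgroup.subgroupOf_eq_top]
        exact fun h => hne (le_antisymm hHK h)
      obtain ⟨N', hN, hle⟩ := (eq_top_or_exists_le_coatom (H.subgroupOf K)).resolve_left hH'
      have hnil : Group.IsNilpotent K := (hG.to_subgroup K).isNilpotent
      have hn : N'.Normal := Subgroup.NormalizerCondition.normal_of_coatom N'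
        Group.normalizerCondition_of_isNilpotent hN
      have hcyc := isCyclic_of_coatom hN hn
      have hsub : (N'.map K.subtype).subgroupOf K = N' :=
        Subgroup.comap_map_eq_self_of_injective (Subgroup.subtype_injective K) N'
      have hcard : Nat.card (N'.map K.subtype) < c := by
        rw [← hc]
        have h1 : Nat.card (N'.map K.subtype) = Nat.card N' :=
          (Nat.card_congr (N'.equivMapOfInjective _ (Subgroup.subtype_injective K)).toEquiv).symm
        rw [h1]
        exact lt_of_le_of_ne (Subgroup.card_le_card_group N')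
          fun h => hN.1 (Subgroup.eq_top_of_card_eq N' h)
      have hHN : H ≤ N'.map K.subtype := by
        intro x hx
        exact ⟨⟨x, hHK hx⟩, hle (Subgroup.mem_subgroupOf.2 hx), rfl⟩
      obtain ⟨r, T, h0, hr, hHT, hT⟩ := ih _ hcard (N'.map K.subtype) hHN rfl
      refine ⟨r + 1, fun j => Nat.casesOn j K T, rfl, hr, fun j hj => ?_, fun j hj => ?_⟩
      · cases j with
        | zero => exact hHK
        | succ j => exact hHT j (by omega)
      cases j with
      | zero =>
        change T 0 ≤ K ∧ ∃ _ : ((T 0).subgroupOf K).Normal, IsCyclic (K ⧸ (T 0).subgroupOf K)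
        rw [h0]
        refine ⟨Subgroup.map_subtype_le N', ?_⟩
        rw [hsub]
        exact ⟨hn, hcyc⟩
      | succ j => exact hT j (by omega)

/-- `k` is `p`-special: every finite separable extension has degree a power of `p`. -/
def IsSpecial (k : Type u) [Field k] (p : ℕ) : Prop :=
  ∀ (L : Type u) [Field L] [Algebra k L] [FiniteDimensional k L] [Algebra.IsSeparable k L],
    ∃ a : ℕ, finrank k L = p ^ a

/-- Over a `p`-special field every finite separable extension is a tower of cyclic extensions. -/
theorem isCyclicTower_of_special {k E : Type u} [Field k] [Field E] [Algebra k E] {p : ℕ}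
    (hp : p.Prime) (hk : IsSpecial k p) [FiniteDimensional k E] [Algebra.IsSeparable k E] :
    IsCyclicTower k E := by
  have : Fact p.Prime := ⟨hp⟩
  let Ω := SeparableClosure E
  have h1 : IsScalarTower k E Ω := inferInstance
  have : Algebra.IsSeparable k Ω := Algebra.IsSeparable.trans k E Ω
  have : IsSepClosed Ω := inferInstance
  have : IsSepClosure k Ω := ⟨inferInstance, inferInstance⟩
  have : IsGalois k Ω := IsSepClosure.isGalois
  let N := IntermediateField.normalClosure k E Ω
  have hG : IsPGroup p (N ≃ₐ[k] N) := by
    obtain ⟨a, ha⟩ := hk N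
    refine IsPGroup.of_card (n := a) ?_
    rw [IsGalois.card_aut_eq_finrank, ha]
  let φ : E →ₐ[k] N := IsScalarTower.toAlgHom k E N
  obtain ⟨r, T, h0, hr, hHT, hT⟩ := exists_chain_pgroup hG
    (IntermediateField.fixingSubgroup φ.fieldRange) ⊤ le_top
  refine isCyclicTower_of_chain φ r (fun j => IntermediateField.fixedField (T j)) ?_ ?_
    (fun j hj => ?_) fun j hj => ?_
  · change IntermediateField.fixedField (T 0) = ⊥
    rw [h0, ← IntermediateField.fixingSubgroup_bot, IsGalois.fixedField_fixingSubgroup]
  · change IntermediateField.fixedField (T r) = φ.fieldRange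
    rw [hr, IsGalois.fixedField_fixingSubgroup]
  · have h2 : IntermediateField.fixedField (T j) ≤
        IntermediateField.fixedField (IntermediateField.fixingSubgroup φ.fieldRange) :=
      fun x hx g => hx ⟨g.1, hHT j hj g.2⟩
    rwa [IsGalois.fixedField_fixingSubgroup] at h2
  · obtain ⟨h1, h2, h3⟩ := hT j hj
    exact galois_step h1 h2 h3

end Pool.Agent.H72.TW
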