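import Pool.Agent.H72.TW.Fields

/-!
# Solvable Galois extensions are towers of cyclic extensions
-/

open Module

namespace Pool.Agent.H72.TW

variable {k E : Type*} [Field k] [Field E] [Algebra k E]

/-- One step: `N` is normal in `H` with cyclic quotient. -/
theorem galois_step [FiniteDimensional k E] [IsGalois k E] {H N : Subgroup (E ≃ₐ[k] E)}
    (hNH : N ≤ H) (hn : (N.subgroupOf H).Normal) (hc : IsCyclic (H ⧸ N.subgroupOf H)) :
    ∃ h : IntermediateField.fixedField H ≤ IntermediateField.fixedField N,
      IsGalois (IntermediateField.fixedField H) (IntermediateField.extendScalars h) ∧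
      IsCyclic (IntermediateField.extendScalars h ≃ₐ[IntermediateField.fixedField H]
        IntermediateField.extendScalars h) := by
  have h : IntermediateField.fixedField H ≤ IntermediateField.fixedField N := by
    intro x hx g
    exact hx ⟨g.1, hNH g.2⟩
  refine ⟨h, ?_⟩
  set K := IntermediateField.fixedField H with hK
  set K' := IntermediateField.extendScalars h with hK'
  -- every automorphism of `E / K` is in `H`
  have hfix : IntermediateField.fixingSubgroup K = H :=
    IntermediateField.fixingSubgroup_fixedField H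
  have hH : ∀ σ : E ≃ₐ[K] E, σ.restrictScalars k ∈ H := by
    intro σ
    rw [← hfix, IntermediateField.mem_fixingSubgroup_iff]
    intro x hx
    exact σ.commutes ⟨x, hx⟩
  have hN : Normal K K' := by
    rw [IntermediateField.normal_iff_forall_map_le']
    rintro σ _ ⟨x, hx, rfl⟩
    change ∀ g : N, g • (σ x) = σ x
    intro g
    have hx' : ∀ g : N, g • x = x := hx
    have h2 : (σ.restrictScalars k)⁻¹ * g.1 * (σ.restrictScalars k) ∈ N := by
      have h3 := hn.conj_mem ⟨g.1, hNH g.2⟩ (Subgroup.mem_subgroupOf.2 g.2)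
        ⟨(σ.restrictScalars k)⁻¹, H.inv_mem (hH σ)⟩
      rw [Subgroup.mem_subgroupOf] at h3
      simpa using h3
    have h4 := hx' ⟨_, h2⟩
    have h5 : (σ.restrictScalars k)⁻¹ (g.1 (σ x)) = x := h4
    have h6 : g.1 (σ x) = (σ.restrictScalars k) ((σ.restrictScalars k)⁻¹ (g.1 (σ x))) :=
      ((σ.restrictScalars k).apply_symm_apply _).symm
    rw [h5] at h6
    exact h6
  have hG : IsGalois K K' := by
    have : Algebra.IsSeparable K K' := Algebra.isSeparable_tower_bot_of_isSeparable K K' E
    exact IsGalois.mk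
  refine ⟨hG, ?_⟩
  -- the homomorphism from `H`
  let e : H →* (E ≃ₐ[K] E) :=
    { toFun := fun g =>
        { (g.1 : E ≃ₐ[k] E).toRingEquiv with
          commutes' := fun x => x.2 g }
      map_one' := by ext x; rfl
      map_mul' := fun a b => by ext x; rfl }
  let q : H →* (K' ≃ₐ[K] K') := (AlgEquiv.restrictNormalHom K').comp e
  have hq : Function.Surjective q := by
    intro τ
    obtain ⟨σ, hσ⟩ := AlgEquiv.restrictNormalHom_surjective (F := K) (K₁ := K') E τ
    refine ⟨⟨σ.restrictScalars k, hH σ⟩, ?_⟩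
    rw [← hσ]
    rfl
  have hker : N.subgroupOf H ≤ q.ker := by
    intro g hg
    rw [MonoidHom.mem_ker]
    ext x
    have h1 := AlgEquiv.restrictNormal_commutes (e g) K' x
    change ((e g).restrictNormal K' x : E) = x
    refine h1.trans ?_
    exact x.2 ⟨g.1, Subgroup.mem_subgroupOf.1 hg⟩
  exact isCyclic_of_surjective (QuotientGroup.lift (N.subgroupOf H) q hker)
    (fun τ => by
      obtain ⟨g, hg⟩ := hq τ
      exact ⟨QuotientGroup.mk g, hg⟩)

/-- The quotient by a normal maximal subgroup is cyclic. -/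
theorem isCyclic_of_coatom {G : Type*} [Group G] {N : Subgroup G} (hN : IsCoatom N) (hn : N.Normal) :
    IsCyclic (G ⧸ N) := by
  obtain ⟨g, hg⟩ : ∃ g, g ∉ N := by
    by_contra h
    push Not at h
    exact hN.1 (Subgroup.eq_top_iff' N |>.2 h)
  have h4 : N ⊔ Subgroup.zpowers g = ⊤ := by
    refine hN.2 _ (lt_of_le_of_ne le_sup_left fun h => hg ?_)
    rw [h]
    exact Subgroup.mem_sup_right (Subgroup.mem_zpowers g)
  refine ⟨⟨QuotientGroup.mk' N g, fun x => ?_⟩⟩
  have h5 : Subgroup.map (QuotientGroup.mk' N) (N ⊔ Subgroup.zpowers g) = ⊤ := by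
    rw [h4]
    exact Subgroup.map_top_of_surjective _ (QuotientGroup.mk'_surjective N)
  rw [Subgroup.map_sup, MonoidHom.map_zpowers] at h5
  have h6 : Subgroup.map (QuotientGroup.mk' N) N = ⊥ := by
    rw [Subgroup.map_eq_bot_iff, QuotientGroup.ker_mk']
  rw [h6, bot_sup_eq] at h5
  have h7 : x ∈ Subgroup.zpowers (QuotientGroup.mk' N g) := by
    rw [h5]
    exact Subgroup.mem_top x
  exact h7

/-- A nontrivial finite solvable group has a proper normal subgroup with cyclic quotient. -/
theorem exists_normal_cyclic {G : Type*} [Group G] [Finite G] [Group.IsSolvable G] [Nontrivial G] :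
    ∃ (N : Subgroup G) (_ : N.Normal), N ≠ ⊤ ∧ IsCyclic (G ⧸ N) := by
  have h1 : commutator G < ⊤ := Group.IsSolvable.commutator_lt_top_of_nontrivial G
  obtain ⟨N, hN, hle⟩ := (eq_top_or_exists_le_coatom (commutator G)).resolve_left h1.ne
  have hn : N.Normal := by
    refine ⟨fun a ha g => ?_⟩
    have h2 : g * a * g⁻¹ * a⁻¹ ∈ N := by
      refine hle ?_
      rw [commutator_def]
      exact Subgroup.commutator_mem_commutator (Subgroup.mem_top g) (Subgroup.mem_top a)
    have h3 := N.mul_mem h2 ha
    rwa [inv_mul_cancel_right] at h3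
  exact ⟨N, hn, hN.1, isCyclic_of_coatom hN hn⟩

/-- The chain of subgroups. -/
theorem exists_chain_subgroup {G : Type*} [Group G] [Finite G] [Group.IsSolvable G] (H : Subgroup G) :
    ∃ (r : ℕ) (T : ℕ → Subgroup G), T 0 = H ∧ T r = ⊥ ∧ ∀ j < r, T (j + 1) ≤ T j ∧
      ∃ _ : ((T (j + 1)).subgroupOf (T j)).Normal, IsCyclic (T j ⧸ (T (j + 1)).subgroupOf (T j)) := by
  induction hc : Nat.card H using Nat.strong_induction_on generalizing H with
  | _ c ih =>
    by_cases hH : H = ⊥
    · exact ⟨0, fun _ => H, rfl, hH, fun j hj => absurd hj (Nat.not_lt_zero j)⟩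
    · have : Nontrivial H := (Subgroup.nontrivial_iff_ne_bot H).2 hH
      obtain ⟨N', hn, hne, hcyc⟩ := exists_normal_cyclic (G := H)
      have hsub : (N'.map H.subtype).subgroupOf H = N' :=
        Subgroup.comap_map_eq_self_of_injective (Subgroup.subtype_injective H) N'
      have hcard : Nat.card (N'.map H.subtype) < c := by
        rw [← hc]
        have h1 : Nat.card (N'.map H.subtype) = Nat.card N' :=
          (Nat.card_congr (N'.equivMapOfInjective _ (Subgroup.subtype_injective H)).toEquiv).symm
        rw [h1]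
        exact lt_of_le_of_ne (Subgroup.card_le_card_group N')
          fun h => hne (Subgroup.eq_top_of_card_eq N' h)
      obtain ⟨r, T, h0, hr, hT⟩ := ih _ hcard (N'.map H.subtype) rfl
      refine ⟨r + 1, fun j => Nat.casesOn j H T, rfl, hr, fun j hj => ?_⟩
      cases j with
      | zero =>
        change T 0 ≤ H ∧ ∃ _ : ((T 0).subgroupOf H).Normal, IsCyclic (H ⧸ (T 0).subgroupOf H)
        rw [h0]
        refine ⟨Subgroup.map_subtype_le N', ?_⟩
        rw [hsub]
        exact ⟨hn, hcyc⟩
      | succ j => exact hT j (by omega)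

theorem isCyclicTower_of_isSolvable [FiniteDimensional k E] [IsGalois k E]
    (hs : Group.IsSolvable (E ≃ₐ[k] E)) : IsCyclicTower k E := by
  obtain ⟨r, T, h0, hr, hT⟩ := exists_chain_subgroup (⊤ : Subgroup (E ≃ₐ[k] E))
  refine ⟨r, fun j => IntermediateField.fixedField (T j), ?_, ?_, fun j hj => ?_⟩
  · change IntermediateField.fixedField (T 0) = ⊥
    rw [h0, ← IntermediateField.fixingSubgroup_bot, IsGalois.fixedField_fixingSubgroup]
  · change IntermediateField.fixedField (T r) = ⊤
    rw [hr, ← IntermediateField.fixingSubgroup_top, IsGalois.fixedField_fixingSubgroup]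
  · obtain ⟨h1, h2, h3⟩ := hT j hj
    exact galois_step h1 h2 h3

end Pool.Agent.H72.TW
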